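import Pool.Agent.H36.QP.Final

set_option autoImplicit false

/-!
# Smooth complete intersections of two quadrics in `P^6` over `F_q(t)`, `q` even

The Hasse principle holds for smooth complete intersections of two quadrics in `P^6` over the
rational function field of a finite field of characteristic two.

`Pool.Agent.H36.QP.rinf F : RatFunc F →+* LaurentSeries F` is the embedding of `F(t)` into its
completion `F((1/t))` at the infinite place: the unique ring homomorphism which extends
`F[t] → F((1/t))`, `t ↦ (1/t)⁻¹`.
-/

namespace Pool.Agent.Results.MP_d4938b_nt.TwoQuadricsCharTwo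

open Polynomial IsDedekindDomain

/-- Let `F` be a finite field of characteristic two, `K = F(t)`, and let `f, g` be quadratic forms
in seven variables over `K` such that `X : f = g = 0` in `P^6` is a smooth complete intersection
(Jacobian criterion over an algebraic closure). If `X` has a point over every completion of `K`
(the completions at the primes of `F[t]`, and `F((1/t))`), then `X` has a `K`-point. -/
theorem result (F : Type) [Field F] [Finite F] [CharP F 2]
    (f g : MvPolynomial (Fin 7) (RatFunc F))
    (hf : f.IsHomogeneous 2) (hg : g.IsHomogeneous 2)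
    (hsmooth : ∀ x : Fin 7 → AlgebraicClosure (RatFunc F), x ≠ 0 →
      MvPolynomial.aeval x f = 0 → MvPolynomial.aeval x g = 0 →
      LinearIndependent (AlgebraicClosure (RatFunc F))
        ![fun i => MvPolynomial.aeval x (MvPolynomial.pderiv i f),
          fun i => MvPolynomial.aeval x (MvPolynomial.pderiv i g)])
    (hfin : ∀ v : HeightOneSpectrum F[X], ∃ x : Fin 7 → v.adicCompletion (RatFunc F),
      x ≠ 0 ∧ MvPolynomial.aeval x f = 0 ∧ MvPolynomial.aeval x g = 0)
    (hinf : ∃ x : Fin 7 → LaurentSeries F,
      x ≠ 0 ∧ MvPolynomial.eval₂ (Pool.Agent.H36.QP.rinf F) x f = 0 ∧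
        MvPolynomial.eval₂ (Pool.Agent.H36.QP.rinf F) x g = 0) :
    ∃ x : Fin 7 → RatFunc F, x ≠ 0 ∧ MvPolynomial.eval x f = 0 ∧ MvPolynomial.eval x g = 0 :=
  Pool.Agent.H36.QP.hasse_final F f g hf hg hsmooth hfin hinf

end Pool.Agent.Results.MP_d4938b_nt.TwoQuadricsCharTwo
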